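import Pool.Agent.Q42.IP.Str

namespace Pool.Agent.Results.MP_32cd73_al.CountableClosure
open Finset Filter Topology Pool.Agent.Q42.IP
open scoped Pointwise

/-- `i(G)`: the proportion of the elements of order exactly `2`. -/
noncomputable def i (G : Type) [Group G] : ℝ := (Nat.card {x : G // orderOf x = 2} : ℝ) / Nat.card G

/-- The set of the numbers `i(G)`, `G` a finite group. -/
def Values : Set ℝ := {v | ∃ (G : Type) (_ : Group G), Finite G ∧ v = i G}

theorem A0_cc : IsCompact A0 ∧ A0.Countable := by
  constructor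
  · exact tendsto_one_div_atTop_nhds_zero_nat.isCompact_insert_range
  · exact (Set.countable_range _).insert _

theorem K0_cc : IsCompact K0 ∧ K0.Countable := by
  have ht : Tendsto (fun n : ℕ => 1 / Real.sqrt n) atTop (𝓝 0) := by
    have h1 : Tendsto (fun n : ℕ => Real.sqrt n) atTop atTop :=
      Real.tendsto_sqrt_atTop.comp tendsto_natCast_atTop_atTop
    have h2 := h1.inv_tendsto_atTop
    have h3 : (fun n : ℕ => 1 / Real.sqrt n) = (fun n : ℕ => Real.sqrt n)⁻¹ := by
      funext n
      rw [Pi.inv_apply, one_div]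
    rw [h3]
    exact h2
  have ht2 : Tendsto (fun n : ℕ => -(1 / Real.sqrt n)) atTop (𝓝 0) := by simpa using ht.neg
  have hK : K0 = insert 0 (Set.range fun n : ℕ => 1 / Real.sqrt n) ∪ insert 0 (Set.range fun n : ℕ => -(1 / Real.sqrt n)) := by
    unfold K0
    ext x
    simp only [Set.mem_union, Set.mem_singleton_iff, Set.mem_insert_iff]
    tauto
  rw [hK]
  constructor
  · exact ht.isCompact_insert_range.union ht2.isCompact_insert_range
  · exact ((Set.countable_range _).insert _).union ((Set.countable_range _).insert _)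

theorem Q0_cc : IsCompact Q0 ∧ Q0.Countable := by
  constructor
  · exact (A0_cc.1.mul A0_cc.1).mul K0_cc.1
  · exact (A0_cc.2.image2 A0_cc.2 _).image2 K0_cc.2 _

theorem SS_cc (n : ℕ) : IsCompact (SS n) ∧ (SS n).Countable := by
  induction n with
  | zero => exact ⟨isCompact_singleton, Set.countable_singleton _⟩
  | succ n ih =>
    constructor
    · exact ih.1.add Q0_cc.1
    · exact ih.2.image2 Q0_cc.2 _

theorem value_mem {G : Type} [Group G] [Finite G] (q : ℕ) (hq0 : 0 < q) (hq : 1 / (q : ℝ) ≤ i G) :
    i G ∈ SS (M1 q * M2 q + 1) := by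
  classical
  have hfin := Fintype.ofFinite G
  have hset : Nat.card {x : G // orderOf x = 2} + 1 = (TT G).card := by
    have h1 : Nat.card {x : G // orderOf x = 2} = ((TT G).erase 1).card := by
      rw [Nat.card_eq_fintype_card, Fintype.card_subtype]
      congr 1
      ext x
      rw [Finset.mem_filter, Finset.mem_erase]
      unfold TT
      rw [Finset.mem_filter]
      constructor
      · rintro ⟨_, hx⟩
        refine ⟨?_, Finset.mem_univ _, ?_⟩
        · rintro rfl
          rw [orderOf_one] at hx
          omega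
        · rw [← sq, ← hx, pow_orderOf_eq_one]
      · rintro ⟨hx1, _, hx2⟩
        refine ⟨Finset.mem_univ _, ?_⟩
        rw [← sq] at hx2
        exact orderOf_eq_prime hx2 hx1
    have h2 : (1 : G) ∈ TT G := by
      unfold TT
      rw [Finset.mem_filter]
      exact ⟨Finset.mem_univ _, one_mul 1⟩
    rw [h1, Finset.card_erase_of_mem h2]
    have : 0 < (TT G).card := Finset.card_pos.2 ⟨1, h2⟩
    omega
  have hG : (0 : ℝ) < Fintype.card G := by exact_mod_cast Fintype.card_pos
  have hq' : (0 : ℝ) < q := by exact_mod_cast hq0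
  have hi : i G = ((TT G).card : ℝ) / Fintype.card G + 1 / (Fintype.card G : ℝ) * (1 / ((1 : ℕ) : ℝ)) * (-(1 / Real.sqrt ((1 : ℕ) : ℝ))) := by
    unfold i
    rw [← hset, Nat.card_eq_fintype_card (α := G)]
    push_cast
    rw [Real.sqrt_one]
    ring
  have hcard : Fintype.card G ≤ q * (TT G).card := by
    have h1 : i G ≤ ((TT G).card : ℝ) / Fintype.card G := by
      unfold i
      rw [← hset, Nat.card_eq_fintype_card (α := G)]
      push_cast
      gcongr
      linarith
    have h2 := hq.trans h1
    rw [div_le_div_iff₀ hq' hG] at h2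
    have h3 : (Fintype.card G : ℝ) ≤ q * (TT G).card := by linarith
    exact_mod_cast h3
  have h1 := main_mem q hcard
  rw [hi]
  refine Set.add_mem_add h1 (Set.mul_mem_mul (Set.mul_mem_mul ?_ ?_) ?_)
  · exact Or.inr ⟨Fintype.card G, rfl⟩
  · exact Or.inr ⟨1, rfl⟩
  · exact Or.inr (Or.inr ⟨1, rfl⟩)

/-- **The proportions of involutions are not dense in `[0, 1/2]`.** The closure of the set of the numbers `i(G)` is
countable, so some open interval around a point `t` of `[0, 1/2]` contains no number `i(G)`, and every open interval of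
real numbers contains an open interval without values `i(G)`. -/
theorem result :
    (closure Values).Countable ∧
    (∃ t : ℝ, 0 ≤ t ∧ t ≤ 1 / 2 ∧ ∃ ε : ℝ, 0 < ε ∧ ∀ (G : Type) [Group G] [Finite G], ε ≤ |i G - t|) ∧
    ∀ a b : ℝ, a < b → ∃ t : ℝ, a < t ∧ t < b ∧ ∃ ε : ℝ, 0 < ε ∧ ∀ (G : Type) [Group G] [Finite G], ε ≤ |i G - t| := by
  have hcount : (closure Values).Countable := by
    have hsub : closure Values ⊆ {0} ∪ ⋃ q : ℕ, SS (M1 q * M2 q + 1) := by
      intro x hx
      have h0 : 0 ≤ x := by
        have : closure Values ⊆ Set.Ici 0 := by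
          apply closure_minimal _ isClosed_Ici
          rintro v ⟨G, _, _, rfl⟩
          change (0 : ℝ) ≤ i G
          unfold i
          positivity
        exact this hx
      rcases h0.eq_or_lt with h | h
      · left; exact h.symm
      · right
        obtain ⟨q, hq⟩ := exists_nat_gt (1 / x)
        have hq0 : (0 : ℝ) < q := lt_trans (by positivity) hq
        have hqx : 1 / (q : ℝ) < x := by
          rw [div_lt_iff₀ hq0]
          rw [div_lt_iff₀ h] at hq
          linarith
        have h2 : closure Values ⊆ Set.Iic (1 / (q : ℝ)) ∪ SS (M1 q * M2 q + 1) := by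
          apply closure_minimal _ (isClosed_Iic.union (SS_cc _).1.isClosed)
          rintro v ⟨G, _, _, rfl⟩
          rcases le_or_gt (i G) (1 / (q : ℝ)) with h3 | h3
          · exact Or.inl h3
          · exact Or.inr (value_mem q (by exact_mod_cast hq0) h3.le)
        rcases h2 hx with h3 | h3
        · exact absurd h3 (not_le.2 hqx)
        · exact Set.mem_iUnion.2 ⟨q, h3⟩
    refine Set.Countable.mono hsub ?_
    exact (Set.countable_singleton _).union (Set.countable_iUnion fun q => (SS_cc _).2)
  have hgap : ∀ a b : ℝ, a < b → ∃ t : ℝ, a < t ∧ t < b ∧ ∃ ε : ℝ, 0 < ε ∧ ∀ (G : Type) [Group G] [Finite G], ε ≤ |i G - t| := by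
    intro a b hab
    have hd : Dense (closure Values)ᶜ := hcount.dense_compl ℝ
    obtain ⟨t, ht1, ht2⟩ := hd.exists_between hab
    have hopen : IsOpen (closure Values)ᶜ := isClosed_closure.isOpen_compl
    obtain ⟨ε, hε, hball⟩ := Metric.isOpen_iff.1 hopen t ht1
    refine ⟨t, ht2.1, ht2.2, ε, hε, ?_⟩
    intro G _ _
    by_contra hcon
    push Not at hcon
    have : i G ∈ Metric.ball t ε := by rw [Metric.mem_ball, Real.dist_eq]; exact hcon
    exact hball this (subset_closure ⟨G, inferInstance, inferInstance, rfl⟩)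
  refine ⟨hcount, ?_, hgap⟩
  obtain ⟨t, h1, h2, h3⟩ := hgap 0 (1 / 2) (by norm_num)
  exact ⟨t, h1.le, h2.le, h3⟩

end Pool.Agent.Results.MP_32cd73_al.CountableClosure
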